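import Mathlib
import Pool.Agent.H86.MstdMptr

open Finset

namespace Pool.Agent.Results.MP_9356de_co.SumsAndProducts

/-- For every `C` there is a finite nonempty set `A` of positive integers with
`|A + A| > C |A - A|` and `|A · A| > C |A / A|`. -/
theorem result (C : ℕ) : ∃ A : Finset ℕ, A.Nonempty ∧ (∀ a ∈ A, 0 < a) ∧
    C * (image₂ (fun a b : ℕ => (a : ℤ) - (b : ℤ)) A A).card <
      (image₂ (fun a b : ℕ => a + b) A A).card ∧
    C * (image₂ (fun a b : ℕ => (a : ℚ) / (b : ℚ)) A A).card <
      (image₂ (fun a b : ℕ => a * b) A A).card :=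
  Pool.Agent.H86.MstdMptr.main C

end Pool.Agent.Results.MP_9356de_co.SumsAndProducts
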